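import Pool.Agent.H385R2.WinE

/-!
The optimal constant of the Montgomery-Taylor type for a set of density `θ` of a family.
-/

open Filter Topology Set

set_option autoImplicit false

namespace Pool.Agent.U85.Chi

open H385

/-- the constant for sets of density `θ` -/
noncomputable def cst (θ : ℝ) : ℝ :=
  if 2 / Real.pi ^ 2 ≤ θ then 1 / (2 * θ) + Real.cot (1 / Real.sqrt (2 * θ)) / Real.sqrt (2 * θ)
  else Real.pi / Real.sqrt (8 * θ)

/-- the closed form along a ray -/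
noncomputable def Fr (θ g b t : ℝ) : ℝ :=
  (t * g / (2 * Real.sin (t * g / 2))) ^ 2 / 2 *
    (1 / (t * b) * (1 + Real.sin (t * g) / (t * g)) +
      2 * (t * b) / θ * ((1 - Real.cos (t * g) - 1) / (t * g) ^ 2 +
        Real.sin (t * g) / (t * g) ^ 3))

theorem Fr_cont (θ g b : ℝ) (hg : 0 < g) (hgπ : g ≤ Real.pi) (hb : 0 < b) :
    ContinuousAt (Fr θ g b) 1 := by
  unfold Fr
  have hs : Real.sin (1 * g / 2) ≠ 0 := by
    refine (Real.sin_pos_of_pos_of_lt_pi (by linarith) ?_).ne'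
    have := Real.pi_pos
    linarith
  have h1 : (1 : ℝ) * g ≠ 0 := by rw [one_mul]; exact hg.ne'
  have h2 : (1 : ℝ) * b ≠ 0 := by rw [one_mul]; exact hb.ne'
  have h3 : (1 * g) ^ 2 ≠ 0 := pow_ne_zero _ h1
  have h4 : (1 * g) ^ 3 ≠ 0 := pow_ne_zero _ h1
  have cg : ContinuousAt (fun t : ℝ => t * g) 1 := by fun_prop
  have cb : ContinuousAt (fun t : ℝ => t * b) 1 := by fun_prop
  have c1 : ContinuousAt (fun t : ℝ => (t * g / (2 * Real.sin (t * g / 2))) ^ 2 / 2) 1 := by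
    refine ContinuousAt.div_const (ContinuousAt.pow (ContinuousAt.div cg ?_ ?_) 2) 2
    · fun_prop
    · exact mul_ne_zero two_ne_zero hs
  have c2 : ContinuousAt (fun t : ℝ => 1 / (t * b)) 1 := continuousAt_const.div cb h2
  have c3 : ContinuousAt (fun t : ℝ => 1 + Real.sin (t * g) / (t * g)) 1 := by
    refine continuousAt_const.add (ContinuousAt.div ?_ cg h1)
    fun_prop
  have c4 : ContinuousAt (fun t : ℝ => 2 * (t * b) / θ) 1 := by fun_prop
  have c5 : ContinuousAt (fun t : ℝ => (1 - Real.cos (t * g) - 1) / (t * g) ^ 2) 1 := by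
    refine ContinuousAt.div ?_ (cg.pow 2) h3
    fun_prop
  have c6 : ContinuousAt (fun t : ℝ => Real.sin (t * g) / (t * g) ^ 3) 1 := by
    refine ContinuousAt.div ?_ (cg.pow 3) h4
    fun_prop
  exact c1.mul ((c2.mul c3).add (c4.mul (c5.add c6)))

theorem Fr_val (θ g b t : ℝ) (ht : 0 < t) (hg : 0 < g) :
    Rw (t * g) 0 / (t * b) + 2 * (t * b) * (∫ α in (0 : ℝ)..1, α * Rw (t * g) α) / θ =
      Fr θ g b t := by
  have h := Rw_const_closed (t * g) (1 / (t * b)) (2 * (t * b) / θ) (by positivity)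
  unfold Fr
  rw [← h]
  ring

theorem Fr_one_a (θ : ℝ) (hθ : 0 < θ) (hθ1 : 2 / Real.pi ^ 2 ≤ θ) :
    Fr θ (Real.sqrt (2 / θ)) 1 1 = cst θ := by
  have hπ := Real.pi_pos
  unfold cst Fr
  rw [if_pos hθ1]
  set x : ℝ := 1 / Real.sqrt (2 * θ) with hx
  have hs0 : 0 < Real.sqrt (2 * θ) := Real.sqrt_pos.mpr (by positivity)
  have hx0 : 0 < x := by positivity
  have hx2 : x ^ 2 = 1 / (2 * θ) := by
    rw [hx, div_pow, one_pow, Real.sq_sqrt (by positivity)]
  have hg : Real.sqrt (2 / θ) = 2 * x := by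
    rw [show 2 / θ = (2 * x) ^ 2 by rw [mul_pow, hx2]; field_simp; try norm_num]
    exact Real.sqrt_sq (by positivity)
  have hθx : 2 / θ = 4 * x ^ 2 := by rw [hx2]; field_simp; try norm_num
  have hxπ : x ≤ Real.pi / 2 := by
    have h1 : x ^ 2 ≤ (Real.pi / 2) ^ 2 := by
      rw [hx2, div_le_iff₀ (by positivity)]
      rw [div_le_iff₀ (by positivity)] at hθ1
      nlinarith
    exact le_of_sq_le_sq h1 (by positivity) 
  have hs : 0 < Real.sin x := Real.sin_pos_of_pos_of_lt_pi hx0 (by linarith)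
  have e1 : Real.cot x / Real.sqrt (2 * θ) = x * (Real.cos x / Real.sin x) := by
    rw [Real.cot_eq_cos_div_sin, hx]; ring
  rw [e1, ← hx2, hg, one_mul, one_mul, mul_one]
  clear_value x
  rw [show 2 * x / 2 = x by ring, Real.sin_two_mul, Real.cos_two_mul, hθx, Real.cos_sq']
  field_simp
  ring

theorem Fr_one_b (θ : ℝ) (hθ : 0 < θ) (hθ1 : ¬ 2 / Real.pi ^ 2 ≤ θ) :
    Fr θ Real.pi (Real.pi * Real.sqrt (θ / 2)) 1 = cst θ := by
  have hπ := Real.pi_pos
  unfold cst Fr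
  rw [if_neg hθ1]
  set y : ℝ := Real.sqrt (θ / 2) with hy
  have hy0 : 0 < y := Real.sqrt_pos.mpr (by positivity)
  have hy2 : θ = 2 * y ^ 2 := by
    rw [hy, Real.sq_sqrt (by positivity)]; ring
  have h8 : Real.sqrt (8 * θ) = 4 * y := by
    rw [show 8 * θ = (4 * y) ^ 2 by rw [hy2]; ring]
    exact Real.sqrt_sq (by positivity)
  rw [h8, one_mul, one_mul, Real.sin_pi_div_two, Real.sin_pi, Real.cos_pi]
  have e : 2 * (Real.pi * y) / θ = Real.pi / y := by
    rw [hy2]; field_simp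
  rw [e]
  field_simp
  ring

/-- every number above the constant is reached by an admissible window -/
theorem exists_window (θ c : ℝ) (hθ : 0 < θ) (hc : cst θ < c) :
    ∃ γ β : ℝ, 0 < γ ∧ γ < Real.pi ∧ 0 < β ∧ β < 1 ∧
      Rw γ 0 / β + 2 * β * (∫ α in (0 : ℝ)..1, α * Rw γ α) / θ < c := by
  have hπ := Real.pi_pos
  obtain ⟨g, b, hg, hgπ, hb, hb1, hF⟩ : ∃ g b : ℝ, 0 < g ∧ g ≤ Real.pi ∧ 0 < b ∧ b ≤ 1 ∧
      Fr θ g b 1 = cst θ := by
    by_cases h : 2 / Real.pi ^ 2 ≤ θ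
    · refine ⟨Real.sqrt (2 / θ), 1, Real.sqrt_pos.mpr (by positivity), ?_, one_pos, le_rfl,
        Fr_one_a θ hθ h⟩
      rw [Real.sqrt_le_left hπ.le, div_le_iff₀ hθ]
      rw [div_le_iff₀ (by positivity)] at h
      linarith
    · refine ⟨Real.pi, Real.pi * Real.sqrt (θ / 2), hπ, le_rfl, by positivity, ?_,
        Fr_one_b θ hθ h⟩
      push Not at h
      rw [lt_div_iff₀ (by positivity)] at h
      have h1 : Real.pi * Real.sqrt (θ / 2) = Real.sqrt (Real.pi ^ 2 * (θ / 2)) := by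
        rw [Real.sqrt_mul (by positivity), Real.sqrt_sq hπ.le]
      rw [h1, Real.sqrt_le_one]
      linarith
  have hcont := Fr_cont θ g b hg hgπ hb
  have h1 : ∀ᶠ t in 𝓝 (1 : ℝ), Fr θ g b t < c := by
    have : Fr θ g b 1 < c := by rw [hF]; exact hc
    exact hcont.eventually (gt_mem_nhds this)
  have h2 : ∀ᶠ t in 𝓝 (1 : ℝ), 0 < t := lt_mem_nhds one_pos
  have h3 : ∀ᶠ t in 𝓝[<] (1 : ℝ), Fr θ g b t < c ∧ 0 < t ∧ t < 1 := by
    have h4 := (h1.and h2).filter_mono (nhdsWithin_le_nhds (s := Set.Iio (1 : ℝ)))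
    filter_upwards [h4, self_mem_nhdsWithin] with t ht ht1
    exact ⟨ht.1, ht.2, ht1⟩
  obtain ⟨t, ht, ht0, ht1⟩ := h3.exists
  refine ⟨t * g, t * b, by positivity, ?_, by positivity, ?_, ?_⟩
  · calc t * g < 1 * g := mul_lt_mul_of_pos_right ht1 hg
      _ ≤ Real.pi := by rw [one_mul]; exact hgπ
  · calc t * b < 1 * b := mul_lt_mul_of_pos_right ht1 hb
      _ ≤ 1 := by rw [one_mul]; exact hb1
  · rw [Fr_val θ g b t ht0 hg]; exact ht

theorem cst_border : 1 / (2 * (2 / Real.pi ^ 2)) +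
    Real.cot (1 / Real.sqrt (2 * (2 / Real.pi ^ 2))) / Real.sqrt (2 * (2 / Real.pi ^ 2)) =
    Real.pi / Real.sqrt (8 * (2 / Real.pi ^ 2)) := by
  have hπ := Real.pi_pos
  have h1 : Real.sqrt (2 * (2 / Real.pi ^ 2)) = 2 / Real.pi := by
    rw [show 2 * (2 / Real.pi ^ 2) = (2 / Real.pi) ^ 2 by ring]
    exact Real.sqrt_sq (by positivity)
  have h2 : Real.sqrt (8 * (2 / Real.pi ^ 2)) = 4 / Real.pi := by
    rw [show 8 * (2 / Real.pi ^ 2) = (4 / Real.pi) ^ 2 by ring]
    exact Real.sqrt_sq (by positivity)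
  rw [h1, h2, one_div_div, Real.cot_eq_cos_div_sin, Real.cos_pi_div_two]
  field_simp
  ring

theorem cst_cont (θ : ℝ) (hθ : 0 < θ) : ContinuousAt cst θ := by
  have hπ := Real.pi_pos
  set f1 : ℝ → ℝ := fun θ => 1 / (2 * θ) + Real.cot (1 / Real.sqrt (2 * θ)) / Real.sqrt (2 * θ)
    with hf1
  set f2 : ℝ → ℝ := fun θ => Real.pi / Real.sqrt (8 * θ) with hf2
  have c2 : ContinuousAt f2 θ := by
    refine ContinuousAt.div (by fun_prop) ?_ (Real.sqrt_pos.mpr (by positivity)).ne'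
    fun_prop
  have c1 : 2 / Real.pi ^ 2 ≤ θ → ContinuousAt f1 θ := by
    intro h
    have hs0 : Real.sqrt (2 * θ) ≠ 0 := (Real.sqrt_pos.mpr (by positivity)).ne'
    have hx0 : 0 < 1 / Real.sqrt (2 * θ) := by positivity
    have hxπ : 1 / Real.sqrt (2 * θ) ≤ Real.pi / 2 := by
      refine le_of_sq_le_sq ?_ (by positivity)
      rw [div_pow, one_pow, Real.sq_sqrt (by positivity), div_le_iff₀ (by positivity)]
      rw [div_le_iff₀ (by positivity)] at h
      nlinarith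
    have hs : Real.sin (1 / Real.sqrt (2 * θ)) ≠ 0 :=
      (Real.sin_pos_of_pos_of_lt_pi hx0 (by linarith)).ne'
    have cs : ContinuousAt (fun θ : ℝ => Real.sqrt (2 * θ)) θ := by fun_prop
    have ci : ContinuousAt (fun θ : ℝ => 1 / Real.sqrt (2 * θ)) θ := continuousAt_const.div cs hs0
    refine ContinuousAt.add ?_ (ContinuousAt.div ?_ cs hs0)
    · exact continuousAt_const.div (by fun_prop) (by positivity)
    · have : (fun θ : ℝ => Real.cot (1 / Real.sqrt (2 * θ))) =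
          fun θ => Real.cos (1 / Real.sqrt (2 * θ)) / Real.sin (1 / Real.sqrt (2 * θ)) := by
        funext x; exact Real.cot_eq_cos_div_sin _
      rw [this]
      exact ContinuousAt.div (Real.continuous_cos.continuousAt.comp ci)
        (Real.continuous_sin.continuousAt.comp ci) hs
  rcases lt_trichotomy (2 / Real.pi ^ 2) θ with h | h | h
  · have : cst =ᶠ[𝓝 θ] f1 := by
      filter_upwards [lt_mem_nhds h] with x hx
      unfold cst
      rw [if_pos hx.le]
    exact (c1 h.le).congr this.symm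
  · have e : f1 θ = f2 θ := by rw [hf1, hf2, ← h]; exact cst_border
    have d1 : Tendsto f1 (𝓝 θ) (𝓝 (cst θ)) := by
      have := c1 h.le
      have e1 : cst θ = f1 θ := by unfold cst; rw [if_pos h.le]
      rw [e1]; exact this
    have d2 : Tendsto f2 (𝓝 θ) (𝓝 (cst θ)) := by
      have e1 : cst θ = f2 θ := by unfold cst; rw [if_pos h.le]; exact e
      rw [e1]; exact c2
    exact d1.if' d2
  · have : cst =ᶠ[𝓝 θ] f2 := by
      filter_upwards [gt_mem_nhds h] with x hx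
      unfold cst
      rw [if_neg (not_le.mpr hx)]
    exact c2.congr this.symm

end Pool.Agent.U85.Chi
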