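import Pool.Agent.U85.Chi.Dist

/-!
Distinct zeros: all the values of the parameter `j` at once.
-/

open Complex Filter Topology Set MeasureTheory
open H370 (zset mult NN Nd Ns)

set_option autoImplicit false

namespace Pool.Agent.U85.Chi

open H385 Pool.Agent.TH243.CYC

/-- a finite number of values of `j` -/
theorem fin_j (M : ℕ → (ℂ → ℂ) → ℝ → ℝ)
    (hM : ∀ j : ℕ, 1 ≤ j → ∀ γ : ℝ, 0 < γ → γ < Real.pi → ∀ A : ℝ, 1 ≤ A → PerOK γ A (M j))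
    (ε : ℝ) (hε : 0 < ε) (J : ℕ) :
    ∃ C : ℝ, 1 ≤ C ∧ ∀ j : ℕ, 1 ≤ j → j ≤ J → ∀ θ ∈ Set.Icc ε 1, ∀ (q : ℕ) [NeZero q] (T : ℝ)
      (S : Finset (DirichletCharacter ℂ q)),
      C * (1 + Real.sqrt (Real.log q)) ≤ T → θ * (Nat.totient q : ℝ) ≤ (S.card : ℝ) →
      ∑ χ ∈ S, M j (LP χ) T ≤ (cst θ + ε) * ∑ χ ∈ S, (NN (LP χ) T (2 * T) : ℝ) := by
  induction J with
  | zero => exact ⟨1, le_rfl, fun j h1 h2 => by omega⟩
  | succ J ih =>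
    obtain ⟨C, hC, h⟩ := ih
    obtain ⟨D, hD, k⟩ := uni (M (J + 1)) (hM (J + 1) (by omega)) ε hε
    refine ⟨max C D, le_max_of_le_left hC, ?_⟩
    intro j h1 h2 θ hθ q _ T S hT hS
    have hs : 0 ≤ 1 + Real.sqrt (Real.log q) := by positivity
    rcases Nat.lt_or_ge J j with h3 | h3
    · have : j = J + 1 := by omega
      subst this
      exact k θ hθ q T S ((mul_le_mul_of_nonneg_right (le_max_right _ _) hs).trans hT) hS
    · exact h j h1 h3 θ hθ q T S ((mul_le_mul_of_nonneg_right (le_max_left _ _) hs).trans hT) hS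

/-- the constant is bounded on `[ε, 1]` -/
theorem cst_bdd (ε : ℝ) (hε : 0 < ε) : ∃ K : ℝ, ∀ θ ∈ Set.Icc ε 1, cst θ ≤ K := by
  obtain ⟨K, hK⟩ := (isCompact_Icc : IsCompact (Set.Icc ε (1 : ℝ))).exists_bound_of_continuousOn
    (f := cst) (fun x hx => (cst_cont x (hε.trans_le hx.1)).continuousWithinAt)
  exact ⟨K, fun θ hθ => (le_abs_self _).trans (hK θ hθ)⟩

theorem ext_d (X Y c : ℝ) (hX : 0 ≤ X) (hY : 0 ≤ Y) (J : ℕ) (hJ : 1 ≤ J) (hc : c ≤ J)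
    (h : (2 * J + 1 - c) * X ≤ J * (J + 1) * Y) (j : ℕ) (hj : J ≤ j) :
    (2 * j + 1 - c) * X ≤ j * (j + 1) * Y := by
  have hJ1 : (1 : ℝ) ≤ J := by exact_mod_cast hJ
  have hj1 : (J : ℝ) ≤ j := by exact_mod_cast hj
  have h1 : (J + 1) * X ≤ (J + 1) * (J * Y) := by
    have : (J + 1) * X ≤ (2 * J + 1 - c) * X := mul_le_mul_of_nonneg_right (by linarith) hX
    linarith
  have h2 : X ≤ J * Y := le_of_mul_le_mul_left h1 (by linarith)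
  have h3 : 2 * (j - J) * X ≤ 2 * (j - J) * (J * Y) :=
    mul_le_mul_of_nonneg_left h2 (by linarith)
  have h4 : 0 ≤ ((j : ℝ) - J) * (j - J + 1) * Y :=
    mul_nonneg (mul_nonneg (by linarith) (by linarith)) hY
  nlinarith

theorem ext_r (X Y c : ℝ) (hX : 0 ≤ X) (hY : 0 ≤ Y) (J : ℕ) (hJ : 1 ≤ J) (hc : c ≤ J)
    (h : (2 * J + 1 - c) * X ≤ ((J + 1) ^ 2 - 2) * Y) (j : ℕ) (hj : J ≤ j) :
    (2 * j + 1 - c) * X ≤ ((j + 1) ^ 2 - 2) * Y := by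
  have hJ1 : (1 : ℝ) ≤ J := by exact_mod_cast hJ
  have hj1 : (J : ℝ) ≤ j := by exact_mod_cast hj
  have h1 : (J + 1) * X ≤ (J + 1) * ((J + 1) * Y) := by
    have : (J + 1) * X ≤ (2 * J + 1 - c) * X := mul_le_mul_of_nonneg_right (by linarith) hX
    nlinarith
  have h2 : X ≤ (J + 1) * Y := le_of_mul_le_mul_left h1 (by linarith)
  have h3 : 2 * (j - J) * X ≤ 2 * (j - J) * ((J + 1) * Y) :=
    mul_le_mul_of_nonneg_left h2 (by linarith)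
  have h4 : 0 ≤ ((j : ℝ) - J) * (j - J) * Y :=
    mul_nonneg (mul_nonneg (by linarith) (by linarith)) hY
  nlinarith

/-- all `j`, distinct zeros -/
theorem all_d (ε : ℝ) (hε : 0 < ε) :
    ∃ C : ℝ, 1 ≤ C ∧ ∀ θ ∈ Set.Icc ε 1, ∀ (q : ℕ) [NeZero q] (T : ℝ)
      (S : Finset (DirichletCharacter ℂ q)),
      C * (1 + Real.sqrt (Real.log q)) ≤ T → θ * (Nat.totient q : ℝ) ≤ (S.card : ℝ) →
      ∀ j : ℕ, 1 ≤ j →
      (2 * j + 1 - (cst θ + ε)) * ∑ χ ∈ S, (NN (LP χ) T (2 * T) : ℝ) ≤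
        j * (j + 1) * ∑ χ ∈ S, (Nd (LP χ) T (2 * T) : ℝ) := by
  obtain ⟨K, hK⟩ := cst_bdd ε hε
  set J : ℕ := ⌈max (K + ε) 1⌉₊ with hJ
  have hJ1 : 1 ≤ J := Nat.one_le_ceil_iff.mpr (lt_of_lt_of_le one_pos (le_max_right _ _))
  have hJK : K + ε ≤ J := (le_max_left _ _).trans (Nat.le_ceil _)
  obtain ⟨C, hC, h⟩ := fin_j _ (fun j hj γ h0 hπ A hA => per_d j hj γ h0 hπ A hA) ε hε J
  refine ⟨C, hC, ?_⟩
  intro θ hθ q _ T S hT hS
  have hX : 0 ≤ ∑ χ ∈ S, (NN (LP χ) T (2 * T) : ℝ) := Finset.sum_nonneg fun _ _ => Nat.cast_nonneg _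
  have hY : 0 ≤ ∑ χ ∈ S, (Nd (LP χ) T (2 * T) : ℝ) := Finset.sum_nonneg fun _ _ => Nat.cast_nonneg _
  have key : ∀ j : ℕ, 1 ≤ j → j ≤ J →
      (2 * j + 1 - (cst θ + ε)) * ∑ χ ∈ S, (NN (LP χ) T (2 * T) : ℝ) ≤
        j * (j + 1) * ∑ χ ∈ S, (Nd (LP χ) T (2 * T) : ℝ) := by
    intro j h1 h2
    have h3 := h j h1 h2 θ hθ q T S hT hS
    rw [Finset.sum_sub_distrib, ← Finset.mul_sum, ← Finset.mul_sum] at h3
    linarith
  intro j hj
  rcases Nat.lt_or_ge J j with h1 | h1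
  · exact ext_d _ _ _ hX hY J hJ1 (by linarith [hK θ hθ]) (key J hJ1 le_rfl) j h1.le
  · exact key j hj h1

/-- all `j`, distinct zeros with real part at least `1/2` -/
theorem all_r (ε : ℝ) (hε : 0 < ε) :
    ∃ C : ℝ, 1 ≤ C ∧ ∀ θ ∈ Set.Icc ε 1, ∀ (q : ℕ) [NeZero q] (T : ℝ)
      (S : Finset (DirichletCharacter ℂ q)),
      C * (1 + Real.sqrt (Real.log q)) ≤ T → θ * (Nat.totient q : ℝ) ≤ (S.card : ℝ) →
      ∀ j : ℕ, 1 ≤ j →
      (2 * j + 1 - (cst θ + ε)) * ∑ χ ∈ S, (NN (LP χ) T (2 * T) : ℝ) ≤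
        ((j + 1) ^ 2 - 2) * ∑ χ ∈ S, (NR (LP χ) T (2 * T) : ℝ) := by
  obtain ⟨K, hK⟩ := cst_bdd ε hε
  set J : ℕ := ⌈max (K + ε) 1⌉₊ with hJ
  have hJ1 : 1 ≤ J := Nat.one_le_ceil_iff.mpr (lt_of_lt_of_le one_pos (le_max_right _ _))
  have hJK : K + ε ≤ J := (le_max_left _ _).trans (Nat.le_ceil _)
  obtain ⟨C, hC, h⟩ := fin_j _ (fun j hj γ h0 hπ A hA => per_r j hj γ h0 hπ A hA) ε hε J
  refine ⟨C, hC, ?_⟩
  intro θ hθ q _ T S hT hS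
  have hX : 0 ≤ ∑ χ ∈ S, (NN (LP χ) T (2 * T) : ℝ) := Finset.sum_nonneg fun _ _ => Nat.cast_nonneg _
  have hY : 0 ≤ ∑ χ ∈ S, (NR (LP χ) T (2 * T) : ℝ) := Finset.sum_nonneg fun _ _ => Nat.cast_nonneg _
  have key : ∀ j : ℕ, 1 ≤ j → j ≤ J →
      (2 * j + 1 - (cst θ + ε)) * ∑ χ ∈ S, (NN (LP χ) T (2 * T) : ℝ) ≤
        ((j + 1) ^ 2 - 2) * ∑ χ ∈ S, (NR (LP χ) T (2 * T) : ℝ) := by
    intro j h1 h2
    have h3 := h j h1 h2 θ hθ q T S hT hS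
    rw [Finset.sum_sub_distrib, ← Finset.mul_sum, ← Finset.mul_sum] at h3
    linarith
  intro j hj
  rcases Nat.lt_or_ge J j with h1 | h1
  · exact ext_r _ _ _ hX hY J hJ1 (by linarith [hK θ hθ]) (key J hJ1 le_rfl) j h1.le
  · exact key j hj h1

theorem Nd_le_NN {q : ℕ} [NeZero q] (χ : DirichletCharacter ℂ q) (T : ℝ) (hT : 1 ≤ T) :
    Nd (LP χ) T (2 * T) ≤ NN (LP χ) T (2 * T) := by
  obtain ⟨A, hA, hgood⟩ := good_LF
  have hg := hgood q χ (NeZero.pos q)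
  have hc : (1 : ℝ) ≤ (χ.conductor : ℝ) := by
    exact_mod_cast Nat.one_le_iff_ne_zero.mpr χ.conductor_ne_zero
  have hfin : (zset (LP χ) T (2 * T)).Finite := zset_finite_U hA hc hg T (2 * T) hT
  have h1 : ((zset_finite_U hA hc hg T (2 * T) hT).toFinset).card ≤ NN (LP χ) T (2 * T) :=
    LocU.card_le_NN_U hA hc hg T (2 * T) hT
  refine le_trans (le_of_eq ?_) h1
  unfold Nd
  rw [Set.ncard_eq_toFinset_card _ hfin]
  rfl

/-- the choice `j = ⌊c⌋` -/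
theorem pick_d (X Y c : ℝ) (hY : 0 ≤ Y) (hYX : Y ≤ X)
    (h : ∀ j : ℕ, 1 ≤ j → (2 * j + 1 - c) * X ≤ j * (j + 1) * Y) : X ≤ c * Y := by
  by_cases hc : 1 ≤ c
  · have h1 : 1 ≤ ⌊c⌋₊ := Nat.le_floor (by push_cast; exact hc)
    have h2 : (⌊c⌋₊ : ℝ) ≤ c := Nat.floor_le (by linarith)
    have h3 : c < ⌊c⌋₊ + 1 := Nat.lt_floor_add_one c
    have h4 := h ⌊c⌋₊ h1
    set j : ℝ := (⌊c⌋₊ : ℝ) with hj
    have hj1 : 1 ≤ j := by rw [hj]; exact_mod_cast h1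
    have h5 : 0 ≤ (c - j) * (j + 1 - c) := mul_nonneg (by linarith) (by linarith)
    have hX : 0 ≤ X := hY.trans hYX
    have h6 : j * (j + 1) * X ≤ j * (j + 1) * (c * Y) := by
      calc j * (j + 1) * X ≤ c * (2 * j + 1 - c) * X :=
            mul_le_mul_of_nonneg_right (by nlinarith) hX
        _ = c * ((2 * j + 1 - c) * X) := by ring
        _ ≤ c * (j * (j + 1) * Y) := mul_le_mul_of_nonneg_left h4 (by linarith)
        _ = _ := by ring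
    exact le_of_mul_le_mul_left h6 (by positivity)
  · push Not at hc
    have h4 := h 1 le_rfl
    push_cast at h4
    have hX : 0 ≤ X := hY.trans hYX
    have h5 : (1 - c) * X ≤ 0 := by nlinarith
    have h6 : X ≤ 0 := by
      by_contra h7
      push Not at h7
      have : 0 < (1 - c) * X := mul_pos (by linarith) h7
      linarith
    have hX0 : X = 0 := le_antisymm h6 hX
    have hY0 : Y = 0 := le_antisymm (by linarith) hY
    rw [hX0, hY0, mul_zero]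

theorem pick_r (X Y c : ℝ) (hY : 0 ≤ Y) (hYX : Y ≤ X)
    (h : ∀ j : ℕ, 1 ≤ j → (2 * j + 1 - c) * X ≤ ((j + 1) ^ 2 - 2) * Y) : X ≤ (c + 1) * Y := by
  by_cases hc : 1 ≤ c
  · have h1 : 1 ≤ ⌊c⌋₊ := Nat.le_floor (by push_cast; exact hc)
    have h2 : (⌊c⌋₊ : ℝ) ≤ c := Nat.floor_le (by linarith)
    have h3 : c < ⌊c⌋₊ + 1 := Nat.lt_floor_add_one c
    have h4 := h ⌊c⌋₊ h1
    set j : ℝ := (⌊c⌋₊ : ℝ) with hj
    have hj1 : 1 ≤ j := by rw [hj]; exact_mod_cast h1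
    have hX : 0 ≤ X := hY.trans hYX
    have h0 : 0 < (j + 1) ^ 2 - 2 := by nlinarith
    have h5 : (j + 1) ^ 2 - 2 ≤ (c + 1) * (2 * j + 1 - c) := by nlinarith
    have h6 : ((j + 1) ^ 2 - 2) * X ≤ ((j + 1) ^ 2 - 2) * ((c + 1) * Y) := by
      calc ((j + 1) ^ 2 - 2) * X ≤ (c + 1) * (2 * j + 1 - c) * X :=
            mul_le_mul_of_nonneg_right h5 hX
        _ = (c + 1) * ((2 * j + 1 - c) * X) := by ring
        _ ≤ (c + 1) * (((j + 1) ^ 2 - 2) * Y) := mul_le_mul_of_nonneg_left h4 (by linarith)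
        _ = _ := by ring
    exact le_of_mul_le_mul_left h6 h0
  · push Not at hc
    have h4 := h 1 le_rfl
    push_cast at h4
    have hX : 0 ≤ X := hY.trans hYX
    have h5 : (1 - c) * X ≤ 0 := by nlinarith
    have h6 : X ≤ 0 := by
      by_contra h7
      push Not at h7
      have : 0 < (1 - c) * X := mul_pos (by linarith) h7
      linarith
    have hX0 : X = 0 := le_antisymm h6 hX
    have hY0 : Y = 0 := le_antisymm (by linarith) hY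
    rw [hX0, hY0, mul_zero]

end Pool.Agent.U85.Chi
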