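import Pool.Agent.U85.Chi.Const

/-!
Numerical values of the constant.
-/

open Complex

set_option autoImplicit false

namespace Pool.Agent.U85.Chi

theorem trig_bd (x : ℝ) (hx0 : 0 ≤ x) (hx2 : x ≤ 2) :
    |Real.cos x - (1 - x ^ 2 / 2 + x ^ 4 / 24 - x ^ 6 / 720 + x ^ 8 / 40320 - x ^ 10 / 3628800)| ≤
      x ^ 12 / 239500800 ∧
    |Real.sin x - (x - x ^ 3 / 6 + x ^ 5 / 120 - x ^ 7 / 5040 + x ^ 9 / 362880 -
      x ^ 11 / 39916800)| ≤ x ^ 12 / 239500800 := by
  have hx : ‖(x : ℂ) * I‖ = x := by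
    rw [norm_mul, Complex.norm_real, Complex.norm_I, mul_one, Real.norm_of_nonneg hx0]
  have h := Complex.exp_bound' (x := (x : ℂ) * I) (n := 12) (by
    rw [hx, div_le_iff₀ (by positivity)]; push_cast; linarith)
  rw [hx] at h
  have hI2 : I ^ 2 = -1 := I_sq
  have hI3 : I ^ 3 = -I := by rw [pow_succ, hI2]; ring
  have hI4 : I ^ 4 = 1 := by rw [pow_succ, hI3]; ring_nf; rw [hI2]; ring
  have hI5 : I ^ 5 = I := by rw [pow_succ, hI4]; ring
  have hI6 : I ^ 6 = -1 := by rw [pow_succ, hI5, ← pow_two, hI2]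
  have hI7 : I ^ 7 = -I := by rw [pow_succ, hI6]; ring
  have hI8 : I ^ 8 = 1 := by rw [pow_succ, hI7]; ring_nf; rw [hI2]; ring
  have hI9 : I ^ 9 = I := by rw [pow_succ, hI8]; ring
  have hI10 : I ^ 10 = -1 := by rw [pow_succ, hI9, ← pow_two, hI2]
  have hI11 : I ^ 11 = -I := by rw [pow_succ, hI10]; ring
  set A : ℝ := 1 - x ^ 2 / 2 + x ^ 4 / 24 - x ^ 6 / 720 + x ^ 8 / 40320 - x ^ 10 / 3628800 with hA
  set B : ℝ := x - x ^ 3 / 6 + x ^ 5 / 120 - x ^ 7 / 5040 + x ^ 9 / 362880 -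
    x ^ 11 / 39916800 with hB
  have hsum : ∑ m ∈ Finset.range 12, ((x : ℂ) * I) ^ m / (m.factorial : ℂ) =
      (A : ℂ) + (B : ℂ) * I := by
    simp only [Finset.sum_range_succ, Finset.sum_range_zero, mul_pow, hI2, hI3, hI4, hI5, hI6, hI7,
      hI8, hI9, hI10, hI11, Nat.factorial, hA, hB]
    push_cast
    ring
  rw [hsum, Complex.exp_ofReal_mul_I] at h
  have hre := (Complex.abs_re_le_norm _).trans h
  have him := (Complex.abs_im_le_norm _).trans h
  have e1 : ((((Real.cos x : ℝ) : ℂ) + ((Real.sin x : ℝ) : ℂ) * I -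
      ((A : ℂ) + (B : ℂ) * I))).re = Real.cos x - A := by
    rw [Complex.sub_re, Complex.add_re, Complex.add_re, Complex.re_ofReal_mul,
      Complex.re_ofReal_mul, Complex.I_re, Complex.ofReal_re, Complex.ofReal_re]
    ring
  have e2 : ((((Real.cos x : ℝ) : ℂ) + ((Real.sin x : ℝ) : ℂ) * I -
      ((A : ℂ) + (B : ℂ) * I))).im = Real.sin x - B := by
    rw [Complex.sub_im, Complex.add_im, Complex.add_im, Complex.im_ofReal_mul,
      Complex.im_ofReal_mul, Complex.I_im, Complex.ofReal_im, Complex.ofReal_im]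
    ring
  rw [e1] at hre
  rw [e2] at him
  have e3 : x ^ 12 / (Nat.factorial 12 : ℝ) * 2 = x ^ 12 / 239500800 := by
    simp only [Nat.factorial]
    push_cast
    ring
  rw [e3] at hre him
  exact ⟨hre, him⟩

theorem two_pi_sq : 2 / Real.pi ^ 2 < 8 / 25 := by
  have := Real.pi_gt_three
  rw [div_lt_iff₀ (by positivity)]
  nlinarith

/-- `c(1) = 1/2 + cot(1/√2)/√2` -/
theorem cst_one : cst 1 = 1 / 2 + Real.cot (1 / Real.sqrt 2) / Real.sqrt 2 := by
  unfold cst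
  rw [if_pos (by linarith [two_pi_sq]), mul_one]

/-- `c(1/2) = 1 + cot 1 < 1.6421` -/
theorem cst_half : cst (1 / 2) < 1.6421 := by
  unfold cst
  rw [if_pos (by linarith [two_pi_sq]), show (2 : ℝ) * (1 / 2) = 1 by norm_num, Real.sqrt_one,
    div_one, div_one, Real.cot_eq_cos_div_sin]
  obtain ⟨h1, h2⟩ := trig_bd 1 (by norm_num) (by norm_num)
  rw [abs_le] at h1 h2
  norm_num at h1 h2
  have hs : 0 < Real.sin 1 := by linarith [h2.1]
  have : Real.cos 1 / Real.sin 1 < 0.6421 := by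
    rw [div_lt_iff₀ hs]
    linarith [h1.2, h2.1]
  linarith

/-- `c(8/25) = 25/16 + (5/4) cot(5/4) < 1.978` -/
theorem cst_third : cst (8 / 25) < 1.978 := by
  unfold cst
  have e : Real.sqrt (2 * (8 / 25)) = 4 / 5 := by
    rw [show (2 : ℝ) * (8 / 25) = (4 / 5) ^ 2 by norm_num]
    exact Real.sqrt_sq (by norm_num)
  rw [if_pos two_pi_sq.le, e, Real.cot_eq_cos_div_sin, show (1 : ℝ) / (4 / 5) = 5 / 4 by norm_num]
  obtain ⟨h1, h2⟩ := trig_bd (5 / 4) (by norm_num) (by norm_num)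
  rw [abs_le] at h1 h2
  norm_num at h1 h2
  have hs : 0 < Real.sin (5 / 4) := by linarith [h2.1]
  have : Real.cos (5 / 4) / Real.sin (5 / 4) < 0.3324 := by
    rw [div_lt_iff₀ hs]
    linarith [h1.2, h2.1]
  norm_num at this ⊢
  linarith

end Pool.Agent.U85.Chi
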