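import Pool.Agent.U85.Chi.Func
import Pool.Agent.U85.Chi.Num
import Pool.Agent.TH243.CYC.Conv

/-!
From sets of characters to the distribution over the characters.
-/

open Complex Filter Topology Set MeasureTheory
open H370 (zset mult NN Nd Ns)

set_option autoImplicit false

namespace Pool.Agent.U85.Chi

open H385 Pool.Agent.TH243.CYC

/-- if the average over every set of `θ φ(q)` characters is large, few characters are bad -/
theorem bad_lt {q : ℕ} [NeZero q] (f g : DirichletCharacter ℂ q → ℝ) (l θ : ℝ) (hθ : 0 < θ)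
    (hS : ∀ S : Finset (DirichletCharacter ℂ q), θ * (Nat.totient q : ℝ) ≤ (S.card : ℝ) →
      l * ∑ χ ∈ S, g χ ≤ ∑ χ ∈ S, f χ) :
    ({χ | f χ < l * g χ}.ncard : ℝ) < θ * (Nat.totient q : ℝ) := by
  classical
  by_contra hcon
  push Not at hcon
  have hφ : (0 : ℝ) < Nat.totient q := by exact_mod_cast Nat.totient_pos.mpr (NeZero.pos q)
  have e1 : {χ | f χ < l * g χ}.ncard = (Finset.univ.filter fun χ => f χ < l * g χ).card := by
    rw [← Set.ncard_coe_finset]
    congr 1
    ext χ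
    simp
  rw [e1] at hcon
  have h1 := hS _ hcon
  have h0 : (0 : ℝ) < ((Finset.univ.filter fun χ => f χ < l * g χ).card : ℝ) :=
    lt_of_lt_of_le (by positivity) hcon
  have hne : (Finset.univ.filter fun χ => f χ < l * g χ).Nonempty := by
    rw [← Finset.card_pos]; exact_mod_cast h0
  have h2 : ∑ χ ∈ Finset.univ.filter (fun χ => f χ < l * g χ), f χ <
      ∑ χ ∈ Finset.univ.filter (fun χ => f χ < l * g χ), l * g χ :=
    Finset.sum_lt_sum_of_nonempty hne fun χ hχ => (Finset.mem_filter.mp hχ).2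
  rw [← Finset.mul_sum] at h2
  linarith

theorem T_ge_one (C T : ℝ) (q : ℕ) (hC : 1 ≤ C) (hT : C * (1 + Real.sqrt (Real.log q)) ≤ T) :
    1 ≤ T := by
  refine le_trans ?_ hT
  have hs := Real.sqrt_nonneg (Real.log q)
  calc (1 : ℝ) = 1 * 1 := by norm_num
    _ ≤ C * (1 + Real.sqrt (Real.log q)) := mul_le_mul hC (by linarith) zero_le_one (by linarith)

/-- the number of zeros of the functions of a set of characters -/
theorem low (ε : ℝ) (hε : 0 < ε) (hε1 : ε ≤ 1) : ∃ C : ℝ, 1 ≤ C ∧ ∀ (q : ℕ) [NeZero q] (T : ℝ)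
      (S : Finset (DirichletCharacter ℂ q)),
      C * (1 + Real.sqrt (Real.log q)) ≤ T → ε * (Nat.totient q : ℝ) ≤ (S.card : ℝ) →
      (1 - ε) * (T / (2 * Real.pi) * Real.log (q * T)) * (S.card : ℝ) ≤
        ∑ χ ∈ S, (NN (DirichletCharacter.LFunction χ) T (2 * T) : ℝ) := by
  have hπ := Real.pi_gt_three
  obtain ⟨C, hC, h⟩ := cyc_core 1 (1 / 2) ε ε one_pos (by linarith) (by norm_num) (by norm_num)
    hε hε1 hε
  refine ⟨C, hC, ?_⟩
  intro q _ T S hT hS
  have hT1 := T_ge_one C T q hC hT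
  have := (h q T S hT hS).2.2
  refine this.trans (le_of_eq (Finset.sum_congr rfl fun χ _ => ?_))
  rw [(counts χ T (2 * T) (by linarith)).1]

end Pool.Agent.U85.Chi
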