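import Pool.Agent.H385R2.FamAbs

/-!
The inequality for families, for a general functional of the zeros.
-/

set_option autoImplicit false
set_option maxHeartbeats 4000000

open Complex Filter Topology Set MeasureTheory
open scoped BigOperators ComplexConjugate
open H370 (zset mult NN Nd Ns GoodL)

namespace Pool.Agent.U85.Chi

open H385

/-- the functional `M` of the zeros with ordinate in `(T, 2T]` is bounded by the mean square of the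
zero sum -/
def PerOK (γ A : ℝ) (M : (ℂ → ℂ) → ℝ → ℝ) : Prop :=
  ∃ C : ℝ, 0 < C ∧ ∀ (Q : ℝ) (F : ℂ → ℂ) (a : ℕ → ℂ), 1 ≤ Q → GoodU A Q F a →
    ∀ T κ Λ V1 V2 : ℝ, 3 ≤ κ → 8 * κ ≤ T → 1 ≤ Λ → T - 3 * κ ≤ V1 → V1 ≤ T - 3 * κ + 1 →
      2 * T + 3 * κ - 1 ≤ V2 → V2 ≤ 2 * T + 3 * κ →
      M F T ≤
        (2 / (Real.sqrt Real.pi * Λ)) * (∫ u in (0 : ℝ)..Λ, Rw γ (u / Λ) *
          ∫ t : ℝ, ‖BB F V1 V2 T u t‖ ^ 2)
        + C * (κ + T * Real.exp (-κ ^ 2 / 2)) * Real.log (Q * T)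

/-- the family inequality for a general functional -/
theorem fam_M (M : (ℂ → ℂ) → ℝ → ℝ) (γ : ℝ) (h0 : 0 < γ) (hπ : γ < Real.pi) (A : ℝ) (hA : 1 ≤ A)
    (hM : PerOK γ A M) :
    ∃ C : ℝ, 0 < C ∧ ∀ {ι : Type} (s : Finset ι) (ω : ι → ℝ) (Q : ι → ℝ) (F : ι → ℂ → ℂ)
      (a : ι → ℕ → ℂ) (T κ Λ Lm y1 y2 : ℝ) (Y : ℝ → ℝ),
      (∀ i ∈ s, 0 ≤ ω i ∧ 1 ≤ Q i ∧ GoodU A (Q i) (F i) (a i) ∧ Real.log (Q i * T) ≤ Lm) →
      3 ≤ κ → 8 * κ ≤ T → T ≤ Real.exp (κ ^ 2 / 2) → 1 ≤ Λ → 1 ≤ Lm →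
      Lm ^ 2 * Real.exp (Λ - κ ^ 2 / 2) ≤ Real.exp (-Λ) → 0 ≤ y1 → 0 ≤ y2 →
      (∀ u ∈ Set.Icc 0 Λ,
        ∫ t : ℝ, ∑ i ∈ s, ω i *
          ‖∑' n : ℕ, a i n * ((Real.sqrt n : ℂ)⁻¹ * bt T u t (Real.log n))‖ ^ 2 ≤ Y u) →
      (∀ u ∈ Set.Icc 0 Λ, Y u ≤ T * (y1 * (u + 1) + y2)) →
      IntervalIntegrable Y volume 0 Λ →
      ∑ i ∈ s, ω i * M (F i) T ≤
        (∑ i ∈ s, ω i) * Lm ^ 2 * Rw γ 0 * T / (2 * Real.pi * Λ) +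
        (2 / (Real.sqrt Real.pi * Λ)) * (∫ u in (0 : ℝ)..Λ, Rw γ (u / Λ) * Y u) +
        C * ((∑ i ∈ s, ω i) * (Lm ^ 2 * κ / Λ + Lm * T / Λ + κ * Lm) +
          Real.sqrt (∑ i ∈ s, ω i) * Lm * T * (Real.sqrt y1 + Real.sqrt y2) / Λ) := by
  obtain ⟨K, hK, hcore⟩ := fa_core γ h0 hπ A hA
  obtain ⟨C2, hC2, hper⟩ := hM
  refine ⟨K + 2 * C2, by positivity, ?_⟩
  intro ι s ω Q F a T κ Λ Lm y1 y2 Y hs hκ hT hTκ hΛ hLm hLmΛ hy1 hy2 hY hYb hYi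
  obtain ⟨V1, V2, hV, hb⟩ := hcore s ω Q F a T κ Λ Lm y1 y2 Y hs hκ hT hTκ hΛ hLm hLmΛ hy1 hy2
    hY hYb hYi
  have hT0 : 0 < T := by linarith
  have hΛ0 : 0 < Λ := by linarith
  have hκ0 : 0 < κ := by linarith
  have hW0 : 0 ≤ ∑ i ∈ s, ω i := Finset.sum_nonneg fun i hi => (hs i hi).1
  have hTe : T * Real.exp (-κ ^ 2 / 2) ≤ 1 := by
    calc T * Real.exp (-κ ^ 2 / 2) ≤ Real.exp (κ ^ 2 / 2) * Real.exp (-κ ^ 2 / 2) := by gcongr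
      _ = 1 := by rw [← Real.exp_add]; simp; ring
  have hstep : ∑ i ∈ s, ω i * M (F i) T ≤
      (∑ i ∈ s, ω i * ((2 / (Real.sqrt Real.pi * Λ)) * (∫ u in (0 : ℝ)..Λ, Rw γ (u / Λ) *
          ∫ t : ℝ, ‖BB (F i) (V1 i) (V2 i) T u t‖ ^ 2))) +
      (∑ i ∈ s, ω i) * (2 * C2 * (κ * Lm)) := by
    rw [Finset.sum_mul, ← Finset.sum_add_distrib]
    apply Finset.sum_le_sum
    intro i hi
    obtain ⟨hω, hQ, hg, hL⟩ := hs i hi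
    obtain ⟨h1, h2, h3, h4⟩ := hV i hi
    have hp := hper (Q i) (F i) (a i) hQ hg T κ Λ (V1 i) (V2 i) hκ hT hΛ h1 h2 h3 h4
    have hlog : 0 ≤ Real.log (Q i * T) := by
      apply Real.log_nonneg
      exact NL.a1 hQ (by linarith)
    have he : C2 * (κ + T * Real.exp (-κ ^ 2 / 2)) * Real.log (Q i * T) ≤
        2 * C2 * (κ * Lm) := by
      calc C2 * (κ + T * Real.exp (-κ ^ 2 / 2)) * Real.log (Q i * T) ≤
          C2 * (κ + κ) * Lm := by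
            have : T * Real.exp (-κ ^ 2 / 2) ≤ κ := by linarith
            gcongr
        _ = _ := by ring
    calc ω i * M (F i) T ≤
        ω i * ((2 / (Real.sqrt Real.pi * Λ)) * (∫ u in (0 : ℝ)..Λ, Rw γ (u / Λ) *
          ∫ t : ℝ, ‖BB (F i) (V1 i) (V2 i) T u t‖ ^ 2) + 2 * C2 * (κ * Lm)) := by
          apply mul_le_mul_of_nonneg_left _ hω
          linarith
      _ = _ := by ring
  refine (hstep.trans (add_le_add_left hb _)).trans ?_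
  set W := ∑ i ∈ s, ω i
  have p1 : 0 ≤ W * (κ * Lm) := by positivity
  have p2 : 0 ≤ W * (Lm ^ 2 * κ / Λ + Lm * T / Λ) := by positivity
  have p3 : 0 ≤ Real.sqrt W * Lm * T * (Real.sqrt y1 + Real.sqrt y2) / Λ := by positivity
  have q1 : 0 ≤ K * (W * (κ * Lm)) := by positivity
  have q2 : 0 ≤ C2 * (W * (Lm ^ 2 * κ / Λ + Lm * T / Λ)) := by positivity
  have q3 : 0 ≤ C2 * (Real.sqrt W * Lm * T * (Real.sqrt y1 + Real.sqrt y2) / Λ) := by positivity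
  have e : (K + 2 * C2) * (W * (Lm ^ 2 * κ / Λ + Lm * T / Λ + κ * Lm) +
      Real.sqrt W * Lm * T * (Real.sqrt y1 + Real.sqrt y2) / Λ) =
      K * (W * (Lm ^ 2 * κ / Λ + Lm * T / Λ) +
      Real.sqrt W * Lm * T * (Real.sqrt y1 + Real.sqrt y2) / Λ) + W * (2 * C2 * (κ * Lm)) +
      K * (W * (κ * Lm)) + 2 * (C2 * (W * (Lm ^ 2 * κ / Λ + Lm * T / Λ))) +
      2 * (C2 * (Real.sqrt W * Lm * T * (Real.sqrt y1 + Real.sqrt y2) / Λ)) := by ring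
  rw [e]
  linarith

end Pool.Agent.U85.Chi
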