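import Pool.Agent.U85.Chi.Uni
import Pool.Agent.Y762.PerJ

/-!
The functionals: simple critical zeros, distinct zeros, distinct zeros in the right half.
-/

open Complex Filter Topology Set MeasureTheory
open scoped ComplexConjugate
open H370 (zset mult NN Nd Ns GoodL)

set_option autoImplicit false

namespace Pool.Agent.U85.Chi

open H385 H385.PerChi Pool.Agent.Y762

/-- the distinct zeros with real part at least `1/2` -/
noncomputable def NR (F : ℂ → ℂ) (T1 T2 : ℝ) : ℕ :=
  {s : ℂ | s ∈ zset F T1 T2 ∧ 1 / 2 ≤ s.re}.ncard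

theorem NR_sum {F : ℂ → ℂ} (hF : GoodL F) {T1 T2 : ℝ} (h1 : 1 ≤ T1)
    (hfin : (zset F T1 T2).Finite) :
    ∑ s ∈ hfin.toFinset, (if s.re = 1 / 2 then (1 : ℝ) else 1 / 2) = NR F T1 T2 := by
  classical
  set Z := hfin.toFinset with hZ
  have hmem : ∀ {s}, s ∈ Z ↔ s ∈ zset F T1 T2 := by
    intro s; rw [hZ, Set.Finite.mem_toFinset]
  set A := Z.filter (fun s => s.re = 1 / 2) with hA
  set B := Z.filter (fun s => 1 / 2 < s.re) with hB
  set C := Z.filter (fun s => s.re < 1 / 2) with hC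
  have hBC : B.card = C.card := by
    refine Finset.card_nbij' (fun s => 1 - conj s) (fun s => 1 - conj s) ?_ ?_ ?_ ?_
    · intro s hs
      rw [Finset.mem_coe, hB, Finset.mem_filter] at hs
      rw [Finset.mem_coe, hC, Finset.mem_filter]
      refine ⟨hmem.2 (zset_refl hF h1 (hmem.1 hs.1)), ?_⟩
      simp only [Complex.sub_re, Complex.one_re, Complex.conj_re]
      linarith [hs.2]
    · intro s hs
      rw [Finset.mem_coe, hC, Finset.mem_filter] at hs
      rw [Finset.mem_coe, hB, Finset.mem_filter]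
      refine ⟨hmem.2 (zset_refl hF h1 (hmem.1 hs.1)), ?_⟩
      simp only [Complex.sub_re, Complex.one_re, Complex.conj_re]
      linarith [hs.2]
    · intro s _
      simp
    · intro s _
      simp
  have hNR : NR F T1 T2 = A.card + B.card := by
    have hd : Disjoint A B := by
      rw [Finset.disjoint_left]
      intro s hs hs'
      have a := (Finset.mem_filter.mp hs).2
      have b := (Finset.mem_filter.mp hs').2
      linarith
    rw [← Finset.card_union_of_disjoint hd, ← Set.ncard_coe_finset]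
    unfold NR
    congr 1
    ext s
    simp only [Finset.coe_union, Set.mem_union, Finset.mem_coe, hA, hB, Finset.mem_filter, hmem,
      Set.mem_ofPred_eq]
    constructor
    · rintro ⟨a, b⟩
      rcases eq_or_lt_of_le b with c | c
      · exact Or.inl ⟨a, c.symm⟩
      · exact Or.inr ⟨a, c⟩
    · rintro (⟨a, b⟩ | ⟨a, b⟩)
      · exact ⟨a, b.symm.le⟩
      · exact ⟨a, b.le⟩
  have hsplit : ∀ s ∈ Z, (if s.re = 1 / 2 then (1 : ℝ) else 1 / 2) =
      (if s.re = 1 / 2 then (1 : ℝ) else 0) + (if 1 / 2 < s.re then (1 / 2 : ℝ) else 0) +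
        (if s.re < 1 / 2 then (1 / 2 : ℝ) else 0) := by
    intro s _
    rcases lt_trichotomy s.re (1 / 2) with h | h | h
    · rw [if_neg h.ne, if_neg h.ne, if_neg (not_lt.mpr h.le), if_pos h]; ring
    · rw [if_pos h, if_pos h, if_neg (by rw [h]; exact lt_irrefl _),
        if_neg (by rw [h]; exact lt_irrefl _)]; ring
    · rw [if_neg h.ne', if_neg h.ne', if_pos h, if_neg (not_lt.mpr h.le)]; ring
  rw [Finset.sum_congr rfl hsplit, Finset.sum_add_distrib, Finset.sum_add_distrib,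
    ← Finset.sum_filter, ← Finset.sum_filter, ← Finset.sum_filter, Finset.sum_const,
    Finset.sum_const, Finset.sum_const, ← hA, ← hB, ← hC, hNR, hBC]
  push_cast
  simp only [nsmul_eq_mul]
  ring

theorem per_s (γ : ℝ) (h0 : 0 < γ) (hπ : γ < Real.pi) (A : ℝ) (hA : 1 ≤ A) :
    PerOK γ A (fun F T => 2 * (NN F T (2 * T) : ℝ) - (Ns F T (2 * T) : ℝ)) :=
  per_chi γ h0 hπ A hA

theorem per_d (j : ℕ) (hj : 1 ≤ j) (γ : ℝ) (h0 : 0 < γ) (hπ : γ < Real.pi) (A : ℝ) (hA : 1 ≤ A) :
    PerOK γ A (fun F T => (2 * j + 1) * (NN F T (2 * T) : ℝ) -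
      j * (j + 1) * (Nd F T (2 * T) : ℝ)) :=
  per_chi_j j hj γ h0 hπ A hA

/-- distinct zeros with real part at least `1/2` -/
theorem per_r (j : ℕ) (hj : 1 ≤ j) (γ : ℝ) (h0 : 0 < γ) (hπ : γ < Real.pi) (A : ℝ) (hA : 1 ≤ A) :
    PerOK γ A (fun F T => (2 * j + 1) * (NN F T (2 * T) : ℝ) -
      ((j + 1) ^ 2 - 2) * (NR F T (2 * T) : ℝ)) := by
  classical
  obtain ⟨C, hC, h⟩ := core_j (j + 1) (by omega) γ h0 hπ A hA
  refine ⟨C, hC, ?_⟩
  intro Q F a hQ hFU T κ Λ V1 V2 hκ hκT hΛ hV1 hV1' hV2 hV2'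
  have hF := goodL hA hQ hFU
  have hfin : (zset F T (2 * T)).Finite := H370.zset_finite hF T _ (by linarith)
  have hj1 : (1 : ℝ) ≤ j := by exact_mod_cast hj
  have hβ : (0 : ℝ) ≤ (j + 1) ^ 2 - 2 := by nlinarith
  have h1 := h Q F a hQ hFU
    (fun s => (2 * j + 1) * (mult F s : ℝ) -
      ((j + 1) ^ 2 - 2) * (if s.re = 1 / 2 then (1 : ℝ) else 1 / 2)) ?_ ?_
    T κ Λ V1 V2 hκ hκT hΛ hV1 hV1' hV2 hV2' hfin
  · refine le_trans (le_of_eq ?_) h1
    have e : (NN F T (2 * T) : ℝ) = ∑ s ∈ hfin.toFinset, (mult F s : ℝ) := by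
      unfold NN
      rw [finsum_mem_eq_finite_toFinset_sum _ hfin]
      push_cast; rfl
    rw [Finset.sum_sub_distrib, ← Finset.mul_sum, ← Finset.mul_sum,
      NR_sum hF (by linarith) hfin, ← e]
  · intro s hs
    have hs' : (1 : ℝ) ≤ (mult F s : ℝ) := by exact_mod_cast hs
    unfold AJ BJ
    push_cast
    by_cases h2 : s.re = 1 / 2
    · by_cases h3 : mult F s ≤ j + 1
      · rw [if_pos h2, if_pos ⟨h2, h3⟩, if_pos h2, if_pos h3]
        have h4 : 0 ≤ ((mult F s : ℝ) - j) * ((mult F s : ℝ) - j - 1) := by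
          rcases Nat.lt_or_ge j (mult F s) with h5 | h5
          · have h6 : (j : ℝ) + 1 ≤ (mult F s : ℝ) := by exact_mod_cast h5
            exact mul_nonneg (by linarith) (by linarith)
          · have h6 : (mult F s : ℝ) ≤ j := by exact_mod_cast h5
            exact mul_nonneg_of_nonpos_of_nonpos (by linarith) (by linarith)
        nlinarith
      · rw [if_pos h2, if_neg (fun h => h3 h.2), if_pos h2, if_neg h3]
        have h4 : (j : ℝ) + 2 ≤ (mult F s : ℝ) := by
          have : j + 2 ≤ mult F s := by omega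
          exact_mod_cast this
        nlinarith
    · rw [if_neg h2, if_neg (fun h => h2 h.1), if_neg h2]
      nlinarith
  · intro s hs
    have hs' : (1 : ℝ) ≤ (mult F s : ℝ) := by exact_mod_cast hs
    have h5 : 0 ≤ ((j : ℝ) + 1) ^ 2 - 2 := hβ
    have h6 : 0 ≤ ((j + 1 : ℝ) ^ 2 - 2) * (if s.re = 1 / 2 then (1 : ℝ) else 1 / 2) := by
      refine mul_nonneg h5 ?_
      split_ifs <;> norm_num
    push_cast
    nlinarith

end Pool.Agent.U85.Chi
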