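import Pool.Agent.U85.Chi.CrFn
import Pool.Agent.U85.Chi.Const

/-!
Uniformity in the density `θ` of the set of characters.
-/

open Complex Filter Topology Set MeasureTheory
open H370 (zset mult NN Nd Ns)

set_option autoImplicit false

namespace Pool.Agent.U85.Chi

open H385 Pool.Agent.TH243.CYC

/-- the bound with the optimal constant, uniformly for the densities in a set -/
def UB (M : (ℂ → ℂ) → ℝ → ℝ) (ε : ℝ) (s : Set ℝ) : Prop :=
  ∃ C : ℝ, 1 ≤ C ∧ ∀ θ ∈ s, ∀ (q : ℕ) [NeZero q] (T : ℝ) (S : Finset (DirichletCharacter ℂ q)),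
      C * (1 + Real.sqrt (Real.log q)) ≤ T → θ * (Nat.totient q : ℝ) ≤ (S.card : ℝ) →
      ∑ χ ∈ S, M (LP χ) T ≤ (cst θ + ε) * ∑ χ ∈ S, (NN (LP χ) T (2 * T) : ℝ)

theorem uni (M : (ℂ → ℂ) → ℝ → ℝ)
    (hM : ∀ γ : ℝ, 0 < γ → γ < Real.pi → ∀ A : ℝ, 1 ≤ A → PerOK γ A M) (ε : ℝ) (hε : 0 < ε) :
    UB M ε (Set.Icc ε 1) := by
  refine (isCompact_Icc : IsCompact (Set.Icc ε (1 : ℝ))).induction_on (p := UB M ε) ?_ ?_ ?_ ?_
  · exact ⟨1, le_rfl, fun θ hθ => absurd hθ (Set.notMem_empty θ)⟩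
  · rintro s t hst ⟨C, hC, h⟩
    exact ⟨C, hC, fun θ hθ => h θ (hst hθ)⟩
  · rintro s t ⟨C, hC, h⟩ ⟨D, hD, k⟩
    refine ⟨max C D, le_max_of_le_left hC, ?_⟩
    intro θ hθ q _ T S hT hS
    have hs : 0 ≤ 1 + Real.sqrt (Real.log q) := by positivity
    rcases hθ with hθ | hθ
    · exact h θ hθ q T S ((mul_le_mul_of_nonneg_right (le_max_left _ _) hs).trans hT) hS
    · exact k θ hθ q T S ((mul_le_mul_of_nonneg_right (le_max_right _ _) hs).trans hT) hS
  · intro x hx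
    have hx0 : 0 < x := hε.trans_le hx.1
    have hc := cst_cont x hx0
    rw [Metric.continuousAt_iff] at hc
    obtain ⟨d, hd, hd1⟩ := hc (ε / 4) (by positivity)
    set δ : ℝ := min (d / 2) (x / 2) with hδ
    have hδ0 : 0 < δ := by positivity
    have hδd : δ < d := (min_le_left _ _).trans_lt (by linarith)
    have hδx : δ ≤ x / 2 := min_le_right _ _
    have hcx : ∀ y : ℝ, |y - x| < d → |cst y - cst x| < ε / 4 := by
      intro y hy
      have := hd1 (x := y) (by rw [Real.dist_eq]; exact hy)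
      rwa [Real.dist_eq] at this
    have hy0 : 0 < x - δ := by linarith
    have hy1 : x - δ ≤ 1 := by linarith [hx.2]
    have h1 : cst (x - δ) < cst x + ε / 2 := by
      have := (abs_lt.mp (hcx (x - δ) (by rw [abs_lt]; constructor <;> linarith))).2
      linarith
    obtain ⟨γ, β, hγ, hγπ, hβ, hβ1, hv⟩ := exists_window (x - δ) _ hy0 h1
    obtain ⟨C0, hC0, hcore⟩ := crFn M γ β (x - δ) (ε / 4) hγ hγπ hβ hβ1 hy0 hy1 (by positivity)
      (fun A hA => hM γ hγ hγπ A hA)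
    refine ⟨Set.Ioo (x - δ) (x + δ), mem_nhdsWithin_of_mem_nhds
      (Ioo_mem_nhds (by linarith) (by linarith)), C0, hC0, ?_⟩
    intro θ hθ q _ T S hT hS
    have hφ : (0 : ℝ) ≤ Nat.totient q := Nat.cast_nonneg _
    have hS' : (x - δ) * (Nat.totient q : ℝ) ≤ (S.card : ℝ) :=
      (mul_le_mul_of_nonneg_right hθ.1.le hφ).trans hS
    refine (hcore q T S hT hS').trans ?_
    refine mul_le_mul_of_nonneg_right ?_ (Finset.sum_nonneg fun χ _ => Nat.cast_nonneg _)
    have h2 := (abs_lt.mp (hcx θ (by rw [abs_lt]; constructor <;> linarith [hθ.1, hθ.2]))).1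
    linarith

end Pool.Agent.U85.Chi
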